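import Pool.Agent.TwoCh.Cube
import Pool.Agent.AntiPath.Walk

set_option autoImplicit false

/-!
# MP_615643_co, two colour changes: from the labelling theorem to paths
-/

namespace Pool.Agent.TwoCh

open Finset Pool.Agent.AntiPath

variable {n : ℕ} (c : (Fin n → Bool) → (Fin n → Bool) → Bool)

/-- the graph of the edges of one colour -/
def mono (hc : ∀ u v, c u v = c v u) (a : Bool) : SimpleGraph (Fin n → Bool) where
  Adj u v := (cube n).Adj u v ∧ c u v = a
  symm := ⟨fun u v ⟨h, h'⟩ => ⟨h.symm, by rw [hc]; exact h'⟩⟩
  loopless := ⟨fun _ h => h.1.ne rfl⟩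

theorem mono_walk (hc : ∀ u v, c u v = c v u) {a : Bool} {x y : Fin n → Bool}
    (w : (mono c hc a).Walk x y) :
    ∃ (w' : (cube n).Walk x y) (k : ℕ), colors c w' = List.replicate k a := by
  induction w with
  | nil => exact ⟨SimpleGraph.Walk.nil, 0, rfl⟩
  | @cons u v z h w ih =>
    obtain ⟨w', k, hw⟩ := ih
    refine ⟨SimpleGraph.Walk.cons h.1 w', k + 1, ?_⟩
    have : colors c (SimpleGraph.Walk.cons h.1 w') = c u v :: colors c w' := rfl
    rw [this, hw, h.2]
    rfl

theorem colors_append {x y z : Fin n → Bool} (w : (cube n).Walk x y) (w' : (cube n).Walk y z) :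
    colors c (w.append w') = colors c w ++ colors c w' := by
  unfold colors
  rw [SimpleGraph.Walk.darts_append, List.map_append]

theorem colors_eq {x y : Fin n → Bool} (w : (cube n).Walk x y) :
    colors c w = (List.range w.length).map fun t => c (w.getVert t) (w.getVert (t + 1)) := by
  induction w with
  | nil => rfl
  | @cons u v z h w ih =>
    have h1 : colors c (SimpleGraph.Walk.cons h w) = c u v :: colors c w := rfl
    rw [h1, ih, SimpleGraph.Walk.length_cons, List.range_succ_eq_map]
    simp [SimpleGraph.Walk.getVert_cons_succ]

theorem exists_three (hc : ∀ u v, c u v = c v u) (a : Bool) :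
    ∃ p u v : Fin n → Bool, (mono c hc a).Reachable u p ∧ (mono c hc (!a)).Reachable u v ∧
      (mono c hc a).Reachable v (antipode p) := by
  classical
  let K := (mono c hc (!a)).ConnectedComponent
  have hK : Finite K := inferInstance
  let f : K → Fin (n + Nat.card K + 2) := fun x =>
    Fin.castLE (by omega) (Finite.equivFin K x)
  have hf : Function.Injective f := by
    intro x y hxy
    exact (Finite.equivFin K).injective (Fin.castLE_injective _ hxy)
  obtain ⟨p, u, v, h1, h2, h3⟩ := two_label (n := n) (m := n + Nat.card K) (by omega)
    (fun x => (mono c hc a).connectedComponentMk x)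
    (fun x => f ((mono c hc (!a)).connectedComponentMk x)) (by
      intro x i hi
      have hadj : (cube n).Adj x (Function.update x i true) := ⟨i, by rw [AntiPath.flip, hi]; rfl⟩
      by_cases h : c x (Function.update x i true) = a
      · right
        exact SimpleGraph.ConnectedComponent.sound
          (SimpleGraph.Adj.reachable (⟨hadj, h⟩ : (mono c hc a).Adj _ _))
      · left
        have h' : c x (Function.update x i true) = !a := by
          revert h
          cases c x (Function.update x i true) <;> cases a <;> simp
        exact congrArg f (SimpleGraph.ConnectedComponent.sound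
          (SimpleGraph.Adj.reachable (⟨hadj, h'⟩ : (mono c hc (!a)).Adj _ _))))
  exact ⟨p, u, v, SimpleGraph.ConnectedComponent.exact h1,
    SimpleGraph.ConnectedComponent.exact (hf h2), SimpleGraph.ConnectedComponent.exact h3⟩

theorem sublist_three {l : List Bool} {a b : Bool} {i j k : ℕ}
    (h : l.Sublist (List.replicate i a ++ List.replicate j b ++ List.replicate k a)) :
    ∃ i' j' k', l = List.replicate i' a ++ List.replicate j' b ++ List.replicate k' a := by
  rw [List.sublist_append_iff] at h
  obtain ⟨l1, l2, rfl, h1, h2⟩ := h
  rw [List.sublist_append_iff] at h1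
  obtain ⟨l3, l4, rfl, h3, h4⟩ := h1
  rw [List.sublist_replicate_iff] at h2 h3 h4
  obtain ⟨k', -, rfl⟩ := h2
  obtain ⟨i', -, rfl⟩ := h3
  obtain ⟨j', -, rfl⟩ := h4
  exact ⟨i', j', k', rfl⟩

theorem chgF_replicate (a : Bool) (k : ℕ) (l : List Bool) :
    chgF a (List.replicate k a ++ l) = chgF a l := by
  induction k with
  | zero => rfl
  | succ k ih =>
    rw [List.replicate_succ, List.cons_append]
    simp [chgF, ih]

theorem chg_three (a b : Bool) (i j k : ℕ) :
    chg (List.replicate i a ++ List.replicate j b ++ List.replicate k a) ≤ 2 := by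
  refine (chg_le_chgF a _).trans ?_
  rw [List.append_assoc, chgF_replicate]
  refine (chgF_le a b _).trans ?_
  rw [chgF_replicate]
  have h1 := chgF_le b a (List.replicate k a ++ [])
  rw [chgF_replicate, List.append_nil] at h1
  simp only [chgF] at h1
  split_ifs at * <;> omega

theorem main (hc : ∀ u v, c u v = c v u) (a : Bool) :
    ∃ (k : ℕ) (p : ℕ → (Fin n → Bool)), IsPath p k ∧ p k = antipode (p 0) ∧
      changes c p k ≤ 2 ∧ ∃ i j : ℕ, i ≤ j ∧ j ≤ k ∧
        ∀ t, t < k → (c (p t) (p (t + 1)) = a ↔ t < i ∨ j ≤ t) := by
  classical
  obtain ⟨m, u, v, ⟨w1⟩, ⟨w2⟩, ⟨w3⟩⟩ := exists_three c hc a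
  obtain ⟨w1', k1, h1⟩ := mono_walk c hc w1.reverse
  obtain ⟨w2', k2, h2⟩ := mono_walk c hc w2
  obtain ⟨w3', k3, h3⟩ := mono_walk c hc w3
  let w := (w1'.append w2').append w3'
  have hw : colors c w = List.replicate k1 a ++ List.replicate k2 (!a) ++ List.replicate k3 a := by
    change colors c ((w1'.append w2').append w3') = _
    rw [colors_append, colors_append, h1, h2, h3]
  have hb : (colors c w.bypass).Sublist (colors c w) := (bypass_darts w).map _
  rw [hw] at hb
  obtain ⟨i, j, l, hl⟩ := sublist_three hb
  have hlen : w.bypass.length = i + j + l := by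
    have := congrArg List.length hl
    rw [colors_eq] at this
    simp only [List.length_map, List.length_range, List.length_append,
      List.length_replicate] at this
    exact this
  refine ⟨w.bypass.length, w.bypass.getVert, ⟨?_, ?_⟩, ?_, ?_, i, i + j, by omega, by omega, ?_⟩
  · intro s t hs ht h
    exact w.bypass_isPath.getVert_injOn hs ht h
  · intro s hs
    obtain ⟨d, hd⟩ := w.bypass.adj_getVert_succ hs
    exact ⟨d, fun e => by rw [hd]; exact flip_diff _ d e⟩
  · rw [w.bypass.getVert_length, w.bypass.getVert_zero]
  · rw [changes_eq, hl]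
    exact chg_three _ _ _ _ _
  · intro t ht
    have h4 : (colors c w.bypass)[t]? = some (c (w.bypass.getVert t) (w.bypass.getVert (t + 1))) := by
      rw [colors_eq, List.getElem?_map, List.getElem?_range ht]
      rfl
    rw [hl, List.append_assoc] at h4
    rw [hlen] at ht
    by_cases h5 : t < i
    · rw [List.getElem?_append_left (by simpa using h5), List.getElem?_replicate, if_pos h5] at h4
      simp only [Option.some.injEq] at h4
      rw [← h4]
      simp [h5]
    · rw [List.getElem?_append_right (by simpa using h5)] at h4
      simp only [List.length_replicate] at h4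
      by_cases h6 : t - i < j
      · rw [List.getElem?_append_left (by simpa using h6), List.getElem?_replicate,
          if_pos h6] at h4
        simp only [Option.some.injEq] at h4
        rw [← h4]
        have : ¬ (i + j ≤ t) := by omega
        simp [h5, this]
      · rw [List.getElem?_append_right (by simpa using h6)] at h4
        simp only [List.length_replicate] at h4
        have h7 : t - i - j < l := by omega
        rw [List.getElem?_replicate, if_pos h7] at h4
        simp only [Option.some.injEq] at h4
        rw [← h4]
        have : i + j ≤ t := by omega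
        simp [this]

end Pool.Agent.TwoCh
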