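import Pool.Agent.TwoCh.Phi

set_option autoImplicit false

/-!
# MP_615643_co, two colour changes: the words in a ring of characteristic two

`R` is a ring in which `r + r = 0`, `D * D = 0`, and `e d` are elements with sum `1`.  For a set
`α` of labels, `om D e α` is the sum of the words `e d_0 * D * e d_1 * D * ... * e d_i` over all
orderings of `α`.
-/

namespace Pool.Agent.TwoCh

open Finset

section words

variable {R : Type*} [Ring R] {L : Type*} [Fintype L] [DecidableEq L]

/-- the sum of the words over all orderings of a set of labels -/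
noncomputable def om (D : R) (e : L → R) (α : Finset L) : R :=
  ∑ d ∈ α.attach, e d * ((if α.erase d = ∅ then 1 else 0) + D * om D e (α.erase d))
termination_by α.card
decreasing_by exact Finset.card_erase_lt_of_mem d.2

/-- the words with a letter `D` in front -/
noncomputable def gg (D : R) (e : L → R) (α : Finset L) : R :=
  (if α = ∅ then 1 else 0) + D * om D e α

theorem om_eq (D : R) (e : L → R) (α : Finset L) :
    om D e α = ∑ d ∈ α, e d * gg D e (α.erase d) := by
  rw [om, ← Finset.sum_attach α]
  rfl

theorem om_empty (D : R) (e : L → R) : om D e ∅ = 0 := by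
  rw [om_eq]; simp

theorem om_singleton (D : R) (e : L → R) (d : L) : om D e {d} = e d := by
  rw [om_eq]
  simp [gg, om_empty]

theorem om_ins (h2 : ∀ r : R, r + r = 0) (D : R) (hD : D * D = 0) (e : L → R)
    (he : ∑ d, e d = 1) (α : Finset L) :
    ∑ d ∈ αᶜ, om D e (insert d α) = (if α = ∅ then 1 else 0) + D * om D e α + om D e α * D := by
  induction hc : α.card using Nat.strong_induction_on generalizing α with
  | _ c ih =>
    have key : ∀ f ∈ α, ∑ d ∈ αᶜ, gg D e (insert d (α.erase f)) =
        gg D e (α.erase f) * D + gg D e α := by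
      intro f hf
      have h1 := ih (α.erase f).card (by rw [← hc]; exact Finset.card_erase_lt_of_mem hf)
        (α.erase f) rfl
      have h3 : (α.erase f)ᶜ = insert f αᶜ := by
        ext x
        simp only [mem_compl, mem_erase, mem_insert, not_and]
        by_cases hx : x = f <;> simp [hx]
      have h4 : ∀ d, gg D e (insert d (α.erase f)) = D * om D e (insert d (α.erase f)) := by
        intro d
        unfold gg
        rw [if_neg (Finset.insert_ne_empty _ _), zero_add]
      have h5 : ∑ d ∈ (α.erase f)ᶜ, gg D e (insert d (α.erase f)) = gg D e (α.erase f) * D := by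
        simp only [h4]
        rw [← Finset.mul_sum, h1]
        unfold gg
        rw [mul_add, mul_add, ← mul_assoc D D, hD, zero_mul, add_zero, add_mul, mul_assoc D]
        congr 1
        split_ifs <;> simp
      rw [h3, Finset.sum_insert (by simp [hf]), Finset.insert_erase hf] at h5
      have h6 := h2 (gg D e α)
      calc ∑ d ∈ αᶜ, gg D e (insert d (α.erase f))
          = (gg D e α + ∑ d ∈ αᶜ, gg D e (insert d (α.erase f))) + gg D e α := by
            rw [add_comm (gg D e α), add_assoc, h6, add_zero]
        _ = _ := by rw [h5]
    have h7 : ∀ d ∈ αᶜ, om D e (insert d α) = e d * gg D e α +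
        ∑ f ∈ α, e f * gg D e (insert d (α.erase f)) := by
      intro d hd
      have hd' : d ∉ α := by simpa using hd
      rw [om_eq, Finset.sum_insert hd', Finset.erase_insert hd']
      congr 1
      refine Finset.sum_congr rfl fun f hf => ?_
      rw [Finset.erase_insert_of_ne]
      rintro rfl
      exact hd' hf
    rw [Finset.sum_congr rfl h7, Finset.sum_add_distrib, Finset.sum_comm, ← Finset.sum_mul]
    have h8 : ∑ f ∈ α, ∑ d ∈ αᶜ, e f * gg D e (insert d (α.erase f)) =
        om D e α * D + (∑ f ∈ α, e f) * gg D e α := by
      rw [om_eq, Finset.sum_mul, Finset.sum_mul, ← Finset.sum_add_distrib]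
      refine Finset.sum_congr rfl fun f hf => ?_
      rw [← Finset.mul_sum, key f hf, mul_add, mul_assoc]
    rw [h8]
    have h9 : (∑ d ∈ αᶜ, e d) * gg D e α + (om D e α * D + (∑ f ∈ α, e f) * gg D e α) =
        (∑ d ∈ α, e d + ∑ d ∈ αᶜ, e d) * gg D e α + om D e α * D := by
      rw [add_mul]; abel
    rw [h9, Finset.sum_add_sum_compl, he, one_mul]
    rfl

end words

variable {R : Type*} [Ring R] {N : ℕ}
variable (h2 : ∀ r : R, r + r = 0) (D : R) (hD : D * D = 0) (e : Fin N → R) (he : ∑ d, e d = 1)

/-- the set of the coordinates with the value `false` -/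
def fs (F : Face N) : Finset (Fin N) := univ.filter fun d => F d = some false

/-- the set of the coordinates with the value `true` -/
def ts (F : Face N) : Finset (Fin N) := univ.filter fun d => F d = some true

theorem fs_tw (F : Face N) : fs (tw F) = ts F := by
  ext d
  simp only [fs, ts, tw, mem_filter, mem_univ, true_and]
  rcases F d with _ | b
  · simp
  · cases b <;> simp

theorem ts_tw (F : Face N) : ts (tw F) = fs F := by
  rw [← fs_tw, tw_tw]

theorem fs_upd_false (F : Face N) (d : Fin N) (hd : F d = none) :
    fs (Function.update F d (some false)) = insert d (fs F) := by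
  ext x
  simp only [fs, mem_filter, mem_univ, true_and, mem_insert]
  by_cases hx : x = d
  · subst hx; simp
  · rw [Function.update_of_ne hx]; simp [hx]

theorem ts_upd_false (F : Face N) (d : Fin N) (hd : F d = none) :
    ts (Function.update F d (some false)) = ts F := by
  ext x
  simp only [ts, mem_filter, mem_univ, true_and]
  by_cases hx : x = d
  · subst hx; simp [hd]
  · rw [Function.update_of_ne hx]

theorem fs_upd_true (F : Face N) (d : Fin N) (hd : F d = none) :
    fs (Function.update F d (some true)) = fs F := by
  ext x
  simp only [fs, mem_filter, mem_univ, true_and]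
  by_cases hx : x = d
  · subst hx; simp [hd]
  · rw [Function.update_of_ne hx]

theorem ts_upd_true (F : Face N) (d : Fin N) (hd : F d = none) :
    ts (Function.update F d (some true)) = insert d (ts F) := by
  ext x
  simp only [ts, mem_filter, mem_univ, true_and, mem_insert]
  by_cases hx : x = d
  · subst hx; simp
  · rw [Function.update_of_ne hx]; simp [hx]

/-- the cochain on the cube of labels -/
noncomputable def psi (D : R) (e : Fin N → R) (tau : R →+ R) (F : Face N) : R :=
  om D e (fs F) * tau (om D e (ts F))

/-- the correction at the faces on which one of the two values does not occur -/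
noncomputable def ee (D : R) (e : Fin N → R) (tau : R →+ R) (F : Face N) : R :=
  (if fs F = ∅ then tau (om D e (ts F)) else 0) + (if ts F = ∅ then om D e (fs F) else 0)

variable (tau : R →+ R) (tmul : ∀ x y, tau (x * y) = tau y * tau x) (tone : tau 1 = 1)
  (tD : tau D = D) (tt : ∀ x, tau (tau x) = x)
  (van : ∀ α β : Finset (Fin N), ¬ Disjoint α β → om D e α * tau (om D e β) = 0)

include tmul tt in
theorem psi_tw (F : Face N) : psi D e tau (tw F) = tau (psi D e tau F) := by
  unfold psi
  rw [fs_tw, ts_tw, tmul, tt]

include h2 hD he tmul tone tD van in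
theorem cob_psi (F : Face N) :
    cob (psi D e tau) F = D * psi D e tau F + psi D e tau F * D + ee D e tau F := by
  have h3 : cob (psi D e tau) F = ∑ d, if F d = none then
      om D e (insert d (fs F)) * tau (om D e (ts F)) +
      om D e (fs F) * tau (om D e (insert d (ts F))) else 0 := by
    unfold cob
    refine sum_congr rfl fun d _ => ?_
    by_cases hd : F d = none
    · rw [if_pos hd, if_pos hd]
      unfold psi
      rw [fs_upd_false F d hd, ts_upd_false F d hd, fs_upd_true F d hd, ts_upd_true F d hd]
    · rw [if_neg hd, if_neg hd]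
  have h4 : ∑ d ∈ (fs F)ᶜ, om D e (insert d (fs F)) * tau (om D e (ts F)) =
      ∑ d, if F d = none then om D e (insert d (fs F)) * tau (om D e (ts F)) else 0 := by
    rw [← Finset.sum_filter]
    symm
    refine Finset.sum_subset ?_ ?_
    · intro d hd
      simp only [mem_filter, mem_univ, true_and] at hd
      simp [fs, hd]
    · intro d hd hd'
      refine van _ _ ?_
      rw [Finset.not_disjoint_iff]
      refine ⟨d, mem_insert_self _ _, ?_⟩
      simp only [mem_compl, fs, mem_filter, mem_univ, true_and] at hd hd'
      simp only [ts, mem_filter, mem_univ, true_and]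
      rcases hF : F d with _ | b
      · exact absurd hF hd'
      · cases b
        · exact absurd hF hd
        · rfl
  have h5 : ∑ d ∈ (ts F)ᶜ, om D e (fs F) * tau (om D e (insert d (ts F))) =
      ∑ d, if F d = none then om D e (fs F) * tau (om D e (insert d (ts F))) else 0 := by
    rw [← Finset.sum_filter]
    symm
    refine Finset.sum_subset ?_ ?_
    · intro d hd
      simp only [mem_filter, mem_univ, true_and] at hd
      simp [ts, hd]
    · intro d hd hd'
      refine van _ _ ?_
      rw [Finset.not_disjoint_iff]
      refine ⟨d, ?_, mem_insert_self _ _⟩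
      simp only [mem_compl, ts, mem_filter, mem_univ, true_and] at hd hd'
      simp only [fs, mem_filter, mem_univ, true_and]
      rcases hF : F d with _ | b
      · exact absurd hF hd'
      · cases b
        · rfl
        · exact absurd hF hd
  have h6 : cob (psi D e tau) F =
      ∑ d ∈ (fs F)ᶜ, om D e (insert d (fs F)) * tau (om D e (ts F)) +
      ∑ d ∈ (ts F)ᶜ, om D e (fs F) * tau (om D e (insert d (ts F))) := by
    rw [h3, h4, h5, ← Finset.sum_add_distrib]
    refine sum_congr rfl fun d _ => ?_
    split_ifs <;> simp
  rw [h6, ← Finset.sum_mul, ← Finset.mul_sum, ← map_sum, om_ins h2 D hD e he,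
    om_ins h2 D hD e he, map_add, map_add, tmul, tmul, tD]
  have h7 : tau (if ts F = ∅ then (1 : R) else 0) = if ts F = ∅ then 1 else 0 := by
    split_ifs
    · exact tone
    · exact map_zero tau
  rw [h7]
  unfold psi ee
  set A := om D e (fs F)
  set B := tau (om D e (ts F))
  have h8 := h2 (A * D * B)
  have h9 : (if fs F = ∅ then (1 : R) else 0) * B = if fs F = ∅ then B else 0 := by
    split_ifs <;> simp
  have h10 : A * (if ts F = ∅ then (1 : R) else 0) = if ts F = ∅ then A else 0 := by
    split_ifs <;> simp
  rw [add_mul, add_mul, mul_add, mul_add, h9, h10]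
  calc (if fs F = ∅ then B else 0) + D * A * B + A * D * B +
        ((if ts F = ∅ then A else 0) + A * (B * D) + A * (D * B))
      = (A * D * B + A * D * B) + (D * (A * B) + A * B * D +
        ((if fs F = ∅ then B else 0) + if ts F = ∅ then A else 0)) := by
        simp only [mul_assoc]; abel
    _ = _ := by rw [h8, zero_add]

include he in
theorem phi_ee_one (m : ℕ) (hm : N = m + 1) :
    phi N m (ee D e tau) = 1 := by
  subst hm
  rw [phi_codim_one, ← he]
  refine sum_congr rfl fun d _ => ?_
  have h1 : fs (Function.update (fun _ => none : Face (m + 1)) d (some false)) = {d} := by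
    rw [fs_upd_false _ _ rfl]
    simp [fs]
  have h3 : ts (Function.update (fun _ => none : Face (m + 1)) d (some false)) = ∅ := by
    rw [ts_upd_false _ _ rfl]
    simp [ts]
  unfold ee
  rw [h1, h3, if_neg (Finset.singleton_ne_empty d), if_pos rfl, om_singleton, zero_add]

theorem phi_ee_zero {k : ℕ} (hk : k + 1 < N) : phi N k (ee D e tau) = 0 := by
  refine phi_van1 hk _ fun F hF hF' => ?_
  obtain ⟨i, hi⟩ := hF
  obtain ⟨j, hj⟩ := hF'
  have h1 : fs F ≠ ∅ := Finset.ne_empty_of_mem (a := i) (by simp [fs, hi])
  have h3 : ts F ≠ ∅ := Finset.ne_empty_of_mem (a := j) (by simp [ts, hj])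
  unfold ee
  rw [if_neg h1, if_neg h3, add_zero]

/-- the cochains `B_k` -/
noncomputable def bb (D : R) (e : Fin N → R) (tau : R →+ R) (k : ℕ) : R :=
  phi N k (psi D e tau)

include h2 hD he tmul tone tD tt van in
theorem bb_step (k : ℕ) :
    bb D e tau k + tau (bb D e tau k) =
      D * bb D e tau (k + 1) + bb D e tau (k + 1) * D + phi N (k + 1) (ee D e tau) := by
  have h3 := phi_cob h2 k (psi D e tau)
  rw [phi_add] at h3
  simp only [psi_tw D e tau tmul tt] at h3
  rw [phi_map tau] at h3
  unfold bb
  rw [← h3]
  have h4 : cob (psi D e tau) = fun F => (D * psi D e tau F + psi D e tau F * D) +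
      ee D e tau F := by
    funext F
    exact cob_psi h2 D hD e he tau tmul tone tD van F
  rw [h4, phi_add, phi_add]
  congr 2
  · exact phi_map (AddMonoidHom.mulLeft D) _ _ _
  · exact phi_map (AddMonoidHom.mulRight D) _ _ _

/-- The ring theoretic form of the theorem: there is no family of additive functionals `Phi k`
with the properties below. -/
theorem no_functional (m n : ℕ) (hN : N = m + 2) (hn : n ≤ m)
    (h2 : ∀ r : R, r + r = 0) (hD : D * D = 0) (he : ∑ d, e d = 1)
    (tmul : ∀ x y, tau (x * y) = tau y * tau x) (tone : tau 1 = 1)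
    (tD : tau D = D) (tt : ∀ x, tau (tau x) = x)
    (van : ∀ α β : Finset (Fin N), ¬ Disjoint α β → om D e α * tau (om D e β) = 0)
    (S : AddSubgroup R) (hS : ∀ F, psi D e tau F ∈ S)
    (Phi : ℕ → R →+ ZMod 2) (hone : Phi 0 1 = 1)
    (hstep : ∀ k, ∀ r ∈ S, Phi (k + 1) (D * r + r * D) = Phi k (r + tau r))
    (hlast : ∀ r, Phi (n + 1) r = 0) : False := by
  have hB : ∀ k, bb D e tau k ∈ S := fun k => phi_mem S _ _ _ hS
  have hb := bb_step h2 D hD e he tau tmul tone tD tt van
  have h3 : ∀ i, i ≤ n → Phi i (bb D e tau (m - i) + tau (bb D e tau (m - i))) = 1 := by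
    intro i
    induction i with
    | zero =>
      intro _
      have h4 : bb D e tau (m + 1) = 0 := by
        unfold bb
        subst hN
        rw [phi_codim_one]
        refine sum_eq_zero fun d _ => ?_
        unfold psi
        have h5 : ts (Function.update (fun _ => none : Face (m + 2)) d (some false)) = ∅ := by
          rw [ts_upd_false _ _ rfl]
          simp [ts]
        rw [h5, om_empty, map_zero, mul_zero]
      rw [Nat.sub_zero, hb m, h4, phi_ee_one D e he tau (m + 1) hN]
      simpa using hone
    | succ i ih =>
      intro hi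
      have h4 : m - (i + 1) + 1 = m - i := by omega
      rw [hb (m - (i + 1)), h4, phi_ee_zero D e tau (by omega), add_zero,
        hstep i _ (hB _)]
      exact ih (by omega)
  have h4 := h3 n le_rfl
  rw [← hstep n _ (hB _), hlast] at h4
  exact zero_ne_one h4

end Pool.Agent.TwoCh
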