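import Pool.Agent.TwoCh.Cube

set_option autoImplicit false

/-!
# MP_615643_co, Norine's conjecture: commuting words

`e` and `f` are two systems of orthogonal idempotents in a ring of characteristic two such that
`e a` commutes with `f d * D * f d'` for `d ≠ d'`, and `f d` commutes with `e a * D * e a'` for
`a ≠ a'`.  Then all words in `e` commute with all words in `f`, and a product of such words
vanishes if `e a * f d = 0` for some label `a` of the first and some label `d` of the second one.
The proof is the ring theoretic form of an argument of helper79 with Steenrod's cup-one homotopy.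
-/

namespace Pool.Agent.TwoCh

open Finset

variable {R : Type*} [Ring R] {L : Type*} [Fintype L] [DecidableEq L]

section one

variable (D : R) (f : L → R) (fo : ∀ a b, a ≠ b → f a * f b = 0)

include fo in
theorem om_left_zero (d : L) (τ : Finset L) (hd : d ∉ τ) : f d * om D f τ = 0 := by
  rw [om_eq, Finset.mul_sum]
  refine Finset.sum_eq_zero fun a ha => ?_
  rw [← mul_assoc, fo d a (fun h => hd (h ▸ ha)), zero_mul]

/-- the words with a letter `D` at the end -/
noncomputable def gr (D : R) (e : L → R) (α : Finset L) : R :=
  (if α = ∅ then 1 else 0) + om D e α * D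

theorem om_right (ρ : Finset L) :
    om D f ρ = ∑ d ∈ ρ, gr D f (ρ.erase d) * f d := by
  induction hc : ρ.card using Nat.strong_induction_on generalizing ρ with
  | _ c ih =>
    have h1 : om D f ρ = ∑ d ∈ ρ, (f d * (if ρ.erase d = ∅ then (1 : R) else 0)) +
        ∑ d ∈ ρ, ∑ d' ∈ ρ.erase d, f d * D * gr D f ((ρ.erase d).erase d') * f d' := by
      rw [om_eq, ← Finset.sum_add_distrib]
      refine Finset.sum_congr rfl fun d hd => ?_
      unfold gg
      rw [mul_add, ih (ρ.erase d).card (by rw [← hc]; exact Finset.card_erase_lt_of_mem hd)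
        (ρ.erase d) rfl, Finset.mul_sum, Finset.mul_sum]
      congr 1
      refine Finset.sum_congr rfl fun d' _ => ?_
      simp only [mul_assoc]
    have h2 : ∑ d ∈ ρ, gr D f (ρ.erase d) * f d =
        ∑ d ∈ ρ, (f d * (if ρ.erase d = ∅ then (1 : R) else 0)) +
        ∑ d' ∈ ρ, ∑ d ∈ ρ.erase d', f d * D * gr D f ((ρ.erase d).erase d') * f d' := by
      rw [← Finset.sum_add_distrib]
      refine Finset.sum_congr rfl fun d' hd' => ?_
      have h3 : gr D f (ρ.erase d') * f d' =
          f d' * (if ρ.erase d' = ∅ then (1 : R) else 0) + om D f (ρ.erase d') * D * f d' := by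
        unfold gr
        rw [add_mul]
        congr 1
        split_ifs <;> simp
      rw [h3, om_eq, Finset.sum_mul, Finset.sum_mul]
      congr 1
      refine Finset.sum_congr rfl fun d hd => ?_
      rw [Finset.erase_right_comm]
      unfold gg gr
      simp only [mul_add, add_mul, mul_assoc]
      congr 1
      split_ifs <;> simp
    rw [h1, h2]
    congr 1
    rw [Finset.sum_sigma', Finset.sum_sigma']
    refine Finset.sum_bij' (fun x _ => ⟨x.2, x.1⟩) (fun x _ => ⟨x.2, x.1⟩) ?_ ?_ ?_ ?_ ?_
    · rintro ⟨x, y⟩ h
      simp only [Finset.mem_sigma, Finset.mem_erase] at h ⊢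
      exact ⟨h.2.2, Ne.symm h.2.1, h.1⟩
    · rintro ⟨x, y⟩ h
      simp only [Finset.mem_sigma, Finset.mem_erase] at h ⊢
      exact ⟨h.2.2, Ne.symm h.2.1, h.1⟩
    · rintro ⟨x, y⟩ _; rfl
    · rintro ⟨x, y⟩ _; rfl
    · rintro ⟨x, y⟩ _; rfl

variable (fs1 : ∑ d, f d = 1)

include fo fs1 in
theorem om_left_one (τ : Finset L) : ∑ d ∈ τ, f d * om D f τ = om D f τ := by
  have h : ∑ d, f d * om D f τ = om D f τ := by rw [← Finset.sum_mul, fs1, one_mul]
  have h' : ∑ d ∈ τᶜ, f d * om D f τ = 0 := Finset.sum_eq_zero fun d hd =>
    om_left_zero D f fo d τ (by simpa using hd)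
  have h'' := Finset.sum_add_sum_compl τ (fun d => f d * om D f τ)
  rw [h', add_zero, h] at h''
  exact h''

include fs1 fo in
theorem idem (d : L) : f d * f d = f d := by
  have h : ∑ d', f d * f d' = f d := by rw [← Finset.mul_sum, fs1, mul_one]
  rw [Finset.sum_eq_single d (fun b _ hb => fo d b (Ne.symm hb)) (by simp)] at h
  exact h

/-- an element that commutes with the letters and with the steps commutes with all words -/
theorem om_comm (fo : ∀ a b, a ≠ b → f a * f b = 0) (fs1 : ∑ d, f d = 1) (z : R)
    (h1 : ∀ d, z * f d = f d * z)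
    (h2 : ∀ d d', d ≠ d' → z * (f d * D * f d') = (f d * D * f d') * z) (ρ : Finset L) :
    z * om D f ρ = om D f ρ * z := by
  induction hc : ρ.card using Nat.strong_induction_on generalizing ρ with
  | _ c ih =>
    rw [om_eq, Finset.mul_sum, Finset.sum_mul]
    refine Finset.sum_congr rfl fun d hd => ?_
    unfold gg
    have h3 := ih (ρ.erase d).card (by rw [← hc]; exact Finset.card_erase_lt_of_mem hd)
      (ρ.erase d) rfl
    have h4 : z * (f d * (D * om D f (ρ.erase d))) = f d * (D * om D f (ρ.erase d)) * z := by
      rw [← om_left_one D f fo fs1 (ρ.erase d)]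
      simp only [Finset.mul_sum, Finset.sum_mul]
      refine Finset.sum_congr rfl fun d' hd' => ?_
      have hne : d ≠ d' := fun h => by
        rw [h] at hd'
        exact Finset.notMem_erase _ _ hd'
      calc z * (f d * (D * (f d' * om D f (ρ.erase d))))
          = z * (f d * D * f d') * om D f (ρ.erase d) := by simp only [mul_assoc]
        _ = f d * D * f d' * (z * om D f (ρ.erase d)) := by rw [h2 d d' hne]; simp only [mul_assoc]
        _ = f d * (D * (f d' * om D f (ρ.erase d))) * z := by rw [h3]; simp only [mul_assoc]
    rw [mul_add, mul_add, add_mul, h4]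
    congr 1
    split_ifs
    · rw [mul_one, h1]
    · simp

end one

section two

variable (h2 : ∀ r : R, r + r = 0) (D : R) (hD : D * D = 0) (e f : L → R)
  (es1 : ∑ d, e d = 1) (eo : ∀ a b, a ≠ b → e a * e b = 0)
  (fs1 : ∑ d, f d = 1) (fo : ∀ a b, a ≠ b → f a * f b = 0)
  (ef : ∀ a d, e a * f d = f d * e a)
  (c1 : ∀ a d d', d ≠ d' → e a * (f d * D * f d') = (f d * D * f d') * e a)
  (c2 : ∀ d a a', a ≠ a' → f d * (e a * D * e a') = (e a * D * e a') * f d)

include h2 hD eo fs1 fo ef c1 in
theorem words_comm (σ ρ : Finset L) :
    om D e σ * om D f ρ = om D f ρ * om D e σ := by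
  induction hc : σ.card using Nat.strong_induction_on generalizing σ with
  | _ c ih =>
    have h3 : ∀ a, e a * om D f ρ = om D f ρ * e a := fun a =>
      om_comm D f fo fs1 (e a) (fun d => ef a d) (fun d d' h => c1 a d d' h) ρ
    have h4 : ∀ a ∈ σ, e a * gg D e (σ.erase a) * om D f ρ =
        om D f ρ * (e a * gg D e (σ.erase a)) := by
      intro a ha
      have h5 := ih (σ.erase a).card (by rw [← hc]; exact Finset.card_erase_lt_of_mem ha)
        (σ.erase a) rfl
      have h6 : e a * om D e (σ.erase a) = 0 :=
        om_left_zero D e eo a _ (Finset.notMem_erase _ _)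
      have h7 : e a * (D * om D f ρ + om D f ρ * D) * om D e (σ.erase a) = 0 := by
        have h8 := om_ins h2 D hD f fs1 ρ
        have h9 : D * om D f ρ + om D f ρ * D =
            (∑ d ∈ ρᶜ, om D f (insert d ρ)) + (if ρ = ∅ then 1 else 0) := by
          rw [h8]
          have h10 := h2 (if ρ = ∅ then (1 : R) else 0)
          calc D * om D f ρ + om D f ρ * D
              = D * om D f ρ + om D f ρ * D + ((if ρ = ∅ then (1 : R) else 0) +
                (if ρ = ∅ then (1 : R) else 0)) := by rw [h10, add_zero]
            _ = _ := by abel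
        rw [h9, mul_add, add_mul, Finset.mul_sum, Finset.sum_mul]
        have h11 : ∀ d ∈ ρᶜ, e a * om D f (insert d ρ) * om D e (σ.erase a) = 0 := by
          intro d _
          rw [om_comm D f fo fs1 (e a) (fun d => ef a d) (fun d d' h => c1 a d d' h), mul_assoc,
            h6, mul_zero]
        rw [Finset.sum_eq_zero h11, zero_add]
        split_ifs
        · rw [mul_one, h6]
        · simp
      have h12 : e a * gg D e (σ.erase a) * om D f ρ + om D f ρ * (e a * gg D e (σ.erase a)) =
          e a * (D * om D f ρ + om D f ρ * D) * om D e (σ.erase a) := by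
        rw [← mul_assoc (om D f ρ), ← h3 a]
        unfold gg
        have h13 : e a * ((if σ.erase a = ∅ then (1 : R) else 0) + D * om D e (σ.erase a)) *
            om D f ρ = (if σ.erase a = ∅ then e a * om D f ρ else 0) +
              e a * (D * om D f ρ) * om D e (σ.erase a) := by
          rw [mul_add, add_mul]
          congr 1
          · split_ifs <;> simp
          · calc e a * (D * om D e (σ.erase a)) * om D f ρ
                = e a * D * (om D e (σ.erase a) * om D f ρ) := by simp only [mul_assoc]
              _ = _ := by rw [h5]; simp only [mul_assoc]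
        have h14 : e a * om D f ρ * ((if σ.erase a = ∅ then (1 : R) else 0) +
            D * om D e (σ.erase a)) = (if σ.erase a = ∅ then e a * om D f ρ else 0) +
              e a * (om D f ρ * D) * om D e (σ.erase a) := by
          rw [mul_add]
          congr 1
          · split_ifs <;> simp
          · simp only [mul_assoc]
        rw [h13, h14]
        have h15 := h2 (if σ.erase a = ∅ then e a * om D f ρ else 0)
        calc _ = ((if σ.erase a = ∅ then e a * om D f ρ else 0) +
              (if σ.erase a = ∅ then e a * om D f ρ else 0)) +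
              (e a * (D * om D f ρ) * om D e (σ.erase a) +
                e a * (om D f ρ * D) * om D e (σ.erase a)) := by abel
          _ = _ := by rw [h15, zero_add, ← add_mul, ← mul_add]
      rw [h7] at h12
      have h16 := h2 (om D f ρ * (e a * gg D e (σ.erase a)))
      calc e a * gg D e (σ.erase a) * om D f ρ
          = (e a * gg D e (σ.erase a) * om D f ρ + om D f ρ * (e a * gg D e (σ.erase a))) +
            om D f ρ * (e a * gg D e (σ.erase a)) := by rw [add_assoc, h16, add_zero]
        _ = _ := by rw [h12, zero_add]
    rw [om_eq, Finset.sum_mul, Finset.mul_sum]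
    exact Finset.sum_congr rfl h4

include h2 hD es1 eo fs1 fo ef c1 c2 in
/-- the vanishing lemma -/
theorem words_zero (a d : L) (had : e a * f d = 0) (σ ρ : Finset L) (ha : a ∈ σ)
    (hd : d ∈ ρ) : om D e σ * om D f ρ = 0 := by
  induction hc : σ.card + ρ.card using Nat.strong_induction_on generalizing σ ρ with
  | _ c ih =>
    have h3 : om D e σ * om D f ρ = e a * (gg D e (σ.erase a) * om D f ρ) := by
      rw [om_eq, Finset.sum_mul, Finset.sum_eq_single a]
      · rw [mul_assoc]
      · intro a' ha' hne
        have hmem : a ∈ σ.erase a' := Finset.mem_erase.2 ⟨Ne.symm hne, ha⟩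
        unfold gg
        rw [if_neg (Finset.ne_empty_of_mem hmem), zero_add]
        have := ih ((σ.erase a').card + ρ.card)
          (by rw [← hc]; have := Finset.card_erase_lt_of_mem ha'; omega)
          (σ.erase a') ρ hmem hd rfl
        rw [mul_assoc, mul_assoc, this, mul_zero, mul_zero]
      · intro h; exact absurd ha h
    have h4 : om D e σ * om D f ρ = om D e σ * gr D f (ρ.erase d) * f d := by
      conv_lhs => rw [om_right D f ρ]
      rw [Finset.mul_sum, Finset.sum_eq_single d]
      · rw [mul_assoc]
      · intro d' hd' hne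
        have hmem : d ∈ ρ.erase d' := Finset.mem_erase.2 ⟨Ne.symm hne, hd⟩
        unfold gr
        rw [if_neg (Finset.ne_empty_of_mem hmem), zero_add]
        have := ih (σ.card + (ρ.erase d').card)
          (by rw [← hc]; have := Finset.card_erase_lt_of_mem hd'; omega)
          σ (ρ.erase d') ha hmem rfl
        rw [← mul_assoc, ← mul_assoc, this, zero_mul, zero_mul]
      · intro h; exact absurd hd h
    have h5 : e a * (om D e σ * om D f ρ) = om D e σ * om D f ρ := by
      conv_lhs => rw [h3]
      rw [← mul_assoc, idem e eo es1 a, ← h3]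
    have h6 : (om D e σ * om D f ρ) * f d = om D e σ * om D f ρ := by
      conv_lhs => rw [h4]
      rw [mul_assoc, idem f fo fs1 d, ← h4]
    have h7 : e a * om D f ρ = om D f ρ * e a :=
      om_comm D f fo fs1 (e a) (fun d => ef a d) (fun d d' h => c1 a d d' h) ρ
    have h8 : f d * om D e σ = om D e σ * f d :=
      om_comm D e eo es1 (f d) (fun a => (ef a d).symm) (fun a a' h => c2 d a a' h) σ
    calc om D e σ * om D f ρ = e a * (om D e σ * om D f ρ) * f d := by rw [h5, h6]
      _ = e a * (om D f ρ * om D e σ) * f d := by
          rw [words_comm h2 D hD e f eo fs1 fo ef c1]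
      _ = (e a * om D f ρ) * (om D e σ * f d) := by simp only [mul_assoc]
      _ = om D f ρ * (e a * f d) * om D e σ := by rw [h7, ← h8]; simp only [mul_assoc]
      _ = 0 := by rw [had, mul_zero, zero_mul]

end two

/-- the antiautomorphism reverses the words -/
theorem tau_om (D : R) (e : L → R) (tau : R →+ R)
    (tmul : ∀ x y, tau (x * y) = tau y * tau x) (tone : tau 1 = 1) (tD : tau D = D)
    (ρ : Finset L) : tau (om D e ρ) = om D (fun a => tau (e a)) ρ := by
  induction hc : ρ.card using Nat.strong_induction_on generalizing ρ with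
  | _ c ih =>
    rw [om_right D (fun a => tau (e a)) ρ, om_eq, map_sum]
    refine Finset.sum_congr rfl fun d hd => ?_
    rw [tmul]
    unfold gg gr
    rw [map_add, tmul, tD, ih (ρ.erase d).card
      (by rw [← hc]; exact Finset.card_erase_lt_of_mem hd) (ρ.erase d) rfl]
    congr 2
    split_ifs
    · exact tone
    · exact map_zero tau

end Pool.Agent.TwoCh
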