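import Pool.Agent.TwoCh.Alg

set_option autoImplicit false

/-!
# MP_615643_co, two colour changes: matrices indexed by the vertices of the cube
-/

namespace Pool.Agent.TwoCh

open Finset

/-- vertices of the cube -/
abbrev V (n : ℕ) := Fin n → Bool

/-- matrices over the field with two elements, indexed by the vertices -/
abbrev Mx (n : ℕ) := Matrix (V n) (V n) (ZMod 2)

/-- the antipode -/
def an {n : ℕ} (x : V n) : V n := fun i => !(x i)

theorem an_an {n : ℕ} (x : V n) : an (an x) = x := by
  funext i; simp [an]

/-- the matrix of the covering relation -/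
def dd (n : ℕ) : Mx n := fun x y =>
  ∑ i, if x i = false ∧ y = Function.update x i true then 1 else 0

theorem two_zero {n : ℕ} (M : Mx n) : M + M = 0 := by
  ext x y
  simp only [Matrix.add_apply, Matrix.zero_apply]
  exact CharTwo.add_self_eq_zero _

theorem dd_mul {n : ℕ} (M : Mx n) (x y : V n) :
    (dd n * M) x y = ∑ i, if x i = false then M (Function.update x i true) y else 0 := by
  rw [Matrix.mul_apply]
  unfold dd
  simp only [Finset.sum_mul]
  rw [Finset.sum_comm]
  refine sum_congr rfl fun i _ => ?_
  by_cases hi : x i = false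
  · simp [hi]
  · simp [hi]

theorem upd_iff {n : ℕ} (x y : V n) (i : Fin n) :
    (x i = false ∧ y = Function.update x i true) ↔ (y i = true ∧ x = Function.update y i false) := by
  constructor
  · rintro ⟨h1, h2⟩
    subst h2
    refine ⟨by simp, ?_⟩
    rw [Function.update_idem, ← h1, Function.update_eq_self]
  · rintro ⟨h1, h2⟩
    subst h2
    refine ⟨by simp, ?_⟩
    rw [Function.update_idem, ← h1, Function.update_eq_self]

theorem mul_dd {n : ℕ} (M : Mx n) (x y : V n) :
    (M * dd n) x y = ∑ i, if y i = true then M x (Function.update y i false) else 0 := by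
  rw [Matrix.mul_apply]
  unfold dd
  simp only [Finset.mul_sum]
  rw [Finset.sum_comm]
  refine sum_congr rfl fun i _ => ?_
  simp only [upd_iff]
  by_cases hi : y i = true
  · simp [hi]
  · simp [hi]

theorem sum_symm_zero {n : ℕ} (f : Fin n → Fin n → ZMod 2) (h1 : ∀ i j, f i j = f j i)
    (h2 : ∀ i, f i i = 0) : ∑ i, ∑ j, f i j = 0 := by
  rw [← Finset.sum_product']
  refine Finset.sum_involution (fun p _ => (p.2, p.1)) ?_ ?_ ?_ ?_
  · rintro ⟨i, j⟩ _
    rw [h1 j i]
    exact CharTwo.add_self_eq_zero _
  · rintro ⟨i, j⟩ _ hij h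
    simp only [Prod.mk.injEq] at h
    apply hij
    rw [h.1]
    exact h2 _
  · rintro ⟨i, j⟩ _
    simp
  · rintro ⟨i, j⟩ _
    rfl

theorem dd_dd (n : ℕ) : dd n * dd n = 0 := by
  ext x y
  rw [dd_mul]
  simp only [Matrix.zero_apply]
  have h : ∀ i, (if x i = false then dd n (Function.update x i true) y else 0) =
      ∑ j, if x i = false ∧ x j = false ∧ i ≠ j ∧
        y = Function.update (Function.update x i true) j true then (1 : ZMod 2) else 0 := by
    intro i
    unfold dd
    by_cases hi : x i = false
    · rw [if_pos hi]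
      refine sum_congr rfl fun j _ => ?_
      by_cases hj : j = i
      · subst hj
        simp
      · rw [Function.update_of_ne hj]
        simp [hi, Ne.symm hj]
    · simp [hi]
  simp only [h]
  refine sum_symm_zero _ ?_ ?_
  · intro i j
    congr 1
    apply propext
    by_cases hij : i = j
    · simp [hij]
    · rw [Function.update_comm hij]
      constructor
      · rintro ⟨a, b, c, d⟩; exact ⟨b, a, Ne.symm c, d⟩
      · rintro ⟨a, b, c, d⟩; exact ⟨b, a, Ne.symm c, d⟩
  · intro i; simp

/-- the antiautomorphism given by the antipodal map -/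
def tau (n : ℕ) : Mx n →+ Mx n where
  toFun M := fun x y => M (an y) (an x)
  map_zero' := rfl
  map_add' _ _ := rfl

theorem tau_apply {n : ℕ} (M : Mx n) (x y : V n) : tau n M x y = M (an y) (an x) := rfl

theorem tau_mul {n : ℕ} (M M' : Mx n) : tau n (M * M') = tau n M' * tau n M := by
  ext x y
  rw [tau_apply, Matrix.mul_apply, Matrix.mul_apply]
  simp only [tau_apply]
  let f : V n ≃ V n := ⟨an, an, an_an, an_an⟩
  rw [← Equiv.sum_comp f]
  refine sum_congr rfl fun z _ => ?_
  exact mul_comm _ _

theorem tau_one (n : ℕ) : tau n 1 = 1 := by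
  ext x y
  rw [tau_apply, Matrix.one_apply, Matrix.one_apply]
  congr 1
  apply propext
  constructor
  · intro h
    rw [← an_an x, ← an_an y, h]
  · intro h; rw [h]

theorem tau_tau {n : ℕ} (M : Mx n) : tau n (tau n M) = M := by
  ext x y
  simp only [tau_apply, an_an]

theorem tau_dd (n : ℕ) : tau n (dd n) = dd n := by
  ext x y
  rw [tau_apply]
  unfold dd
  refine sum_congr rfl fun i _ => ?_
  congr 1
  apply propext
  rw [upd_iff x y i]
  have h1 : (an y) i = false ↔ y i = true := by simp [an]
  have h3 : an x = Function.update (an y) i true ↔ x = Function.update y i false := by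
    constructor
    · intro h
      have := congrArg an h
      rw [an_an] at this
      rw [this]
      funext j
      by_cases hj : j = i
      · subst hj; simp [an]
      · simp [an, Function.update_of_ne hj]
    · intro h
      rw [h]
      funext j
      by_cases hj : j = i
      · subst hj; simp [an]
      · simp [an, Function.update_of_ne hj]
  rw [h1, h3]

/-- the matrices supported on the pairs `x ≤ y` -/
def inc (n : ℕ) : Subring (Mx n) where
  carrier := {M | ∀ x y, M x y ≠ 0 → ∀ i, x i = true → y i = true}
  mul_mem' := by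
    intro a b ha hb x y h i hi
    rw [Matrix.mul_apply] at h
    obtain ⟨z, -, hz⟩ := Finset.exists_ne_zero_of_sum_ne_zero h
    exact hb z y (right_ne_zero_of_mul hz) i (ha x z (left_ne_zero_of_mul hz) i hi)
  one_mem' := by
    intro x y h i hi
    rw [Matrix.one_apply] at h
    have : x = y := by
      by_contra hxy
      exact h (if_neg hxy)
    rwa [← this]
  add_mem' := by
    intro a b ha hb x y h i hi
    rw [Matrix.add_apply] at h
    by_cases h1 : a x y = 0
    · rw [h1, zero_add] at h
      exact hb x y h i hi
    · exact ha x y h1 i hi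
  zero_mem' := by
    intro x y h
    exact absurd rfl h
  neg_mem' := by
    intro a ha x y h i hi
    rw [Matrix.neg_apply] at h
    exact ha x y (by simpa using h) i hi

theorem mem_inc {n : ℕ} (M : Mx n) :
    M ∈ inc n ↔ ∀ x y, M x y ≠ 0 → ∀ i, x i = true → y i = true := Iff.rfl

theorem dd_mem (n : ℕ) : dd n ∈ inc n := by
  rw [mem_inc]
  intro x y h i hi
  unfold dd at h
  obtain ⟨j, -, hj⟩ := Finset.exists_ne_zero_of_sum_ne_zero h
  have : x j = false ∧ y = Function.update x j true := by
    by_contra hc
    exact hj (if_neg hc)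
  rw [this.2]
  by_cases hij : i = j
  · subst hij; simp
  · rw [Function.update_of_ne hij]; exact hi

theorem tau_mem {n : ℕ} {M : Mx n} (hM : M ∈ inc n) : tau n M ∈ inc n := by
  rw [mem_inc] at hM ⊢
  intro x y h i hi
  rw [tau_apply] at h
  by_contra hc
  have h1 := hM _ _ h i (by simp only [an]; cases h : y i <;> simp_all)
  simp only [an, hi] at h1
  exact absurd h1 (by simp)

/-- the least vertex of a face -/
def lo {n : ℕ} (F : Face n) : V n := fun i => (F i).getD false

/-- the greatest vertex of a face -/
def hi {n : ℕ} (F : Face n) : V n := fun i => (F i).getD true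

theorem lo_tw {n : ℕ} (F : Face n) : lo (tw F) = an (hi F) := by
  funext i
  simp only [lo, tw, an, hi]
  rcases F i with _ | b <;> rfl

theorem hi_tw {n : ℕ} (F : Face n) : hi (tw F) = an (lo F) := by
  funext i
  simp only [lo, tw, an, hi]
  rcases F i with _ | b <;> rfl

/-- the functionals -/
def Phi (n k : ℕ) : Mx n →+ ZMod 2 where
  toFun M := phi n k fun F => M (lo F) (hi F)
  map_zero' := by
    simp only [Matrix.zero_apply]
    exact phi_zero_fun _ _
  map_add' M M' := by
    simp only [Matrix.add_apply]
    exact phi_add _ _ _ _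

theorem Phi_apply {n k : ℕ} (M : Mx n) : Phi n k M = phi n k fun F => M (lo F) (hi F) := rfl

theorem Phi_one (n : ℕ) : Phi n 0 1 = 1 := by
  rw [Phi_apply]
  refine phi_zero_const _ _ fun F hF => ?_
  have : lo F = hi F := by
    funext i
    unfold lo hi
    rcases h : F i with _ | b
    · exact absurd h (hF i)
    · rfl
  rw [this, Matrix.one_apply_eq]

theorem Phi_last (n : ℕ) (M : Mx n) : Phi n (n + 1) M = 0 := by
  rw [Phi_apply]
  exact phi_gt (Nat.lt_succ_self n) _

theorem lo_upd {n : ℕ} (F : Face n) (i : Fin n) (b : Bool) :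
    lo (Function.update F i (some b)) = Function.update (lo F) i b := by
  funext j
  by_cases hj : j = i
  · subst hj; simp [lo]
  · simp [lo, Function.update_of_ne hj]

theorem hi_upd {n : ℕ} (F : Face n) (i : Fin n) (b : Bool) :
    hi (Function.update F i (some b)) = Function.update (hi F) i b := by
  funext j
  by_cases hj : j = i
  · subst hj; simp [hi]
  · simp [hi, Function.update_of_ne hj]

theorem res_comm {n : ℕ} {M : Mx n} (hM : M ∈ inc n) (F : Face n) :
    (dd n * M + M * dd n) (lo F) (hi F) = cob (fun G => M (lo G) (hi G)) F := by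
  rw [Matrix.add_apply, dd_mul, mul_dd, ← Finset.sum_add_distrib]
  unfold cob
  refine sum_congr rfl fun i _ => ?_
  rw [mem_inc] at hM
  change (if lo F i = false then M (Function.update (lo F) i true) (hi F) else 0) +
    (if hi F i = true then M (lo F) (Function.update (hi F) i false) else 0) =
    (if F i = none then M (lo (Function.update F i (some false)))
      (hi (Function.update F i (some false))) + M (lo (Function.update F i (some true)))
      (hi (Function.update F i (some true))) else 0)
  rw [lo_upd, lo_upd, hi_upd, hi_upd]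
  rcases h : F i with _ | b
  · have h1 : lo F i = false := by simp [lo, h]
    have h2 : hi F i = true := by simp [hi, h]
    have h3 : Function.update (lo F) i false = lo F := by rw [← h1, Function.update_eq_self]
    have h4 : Function.update (hi F) i true = hi F := by rw [← h2, Function.update_eq_self]
    rw [if_pos h1, if_pos h2, if_pos rfl, h3, h4, add_comm]
  · have h1 : lo F i = b := by simp [lo, h]
    have h2 : hi F i = b := by simp [hi, h]
    rw [if_neg (show ¬ (some b = none) by simp)]
    cases b
    · rw [if_pos h1, if_neg (show ¬ (hi F i = true) by simp [h2]), add_zero]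
      by_contra hc
      have := hM _ _ hc i (by simp)
      rw [h2] at this
      exact absurd this (by simp)
    · rw [if_neg (show ¬ (lo F i = false) by simp [h1]), if_pos h2, zero_add]
      by_contra hc
      have := hM _ _ hc i h1
      simp at this

theorem Phi_step {n : ℕ} (k : ℕ) {M : Mx n} (hM : M ∈ inc n) :
    Phi n (k + 1) (dd n * M + M * dd n) = Phi n k (M + tau n M) := by
  rw [Phi_apply, Phi_apply]
  simp only [res_comm hM]
  rw [phi_cob (fun r => CharTwo.add_self_eq_zero r)]
  simp only [Matrix.add_apply, tau_apply, lo_tw, hi_tw]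

/-- the diagonal matrix of a label -/
def ed {n : ℕ} {L : Type*} [DecidableEq L] (b : V n → L) (d : L) : Mx n :=
  Matrix.diagonal fun x => if b x = d then 1 else 0

theorem ed_sum {n : ℕ} {L : Type*} [Fintype L] [DecidableEq L] (b : V n → L) :
    ∑ d, ed b d = 1 := by
  ext x y
  rw [Matrix.sum_apply]
  unfold ed
  by_cases h : x = y
  · subst h
    simp
  · simp [Matrix.diagonal_apply_ne _ h, Matrix.one_apply_ne h]

theorem ed_mem {n : ℕ} {L : Type*} [DecidableEq L] (b : V n → L) (d : L) :
    ed b d ∈ inc n := by
  rw [mem_inc]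
  intro x y h i hi
  have : x = y := by
    by_contra hc
    exact h (Matrix.diagonal_apply_ne _ hc)
  rwa [← this]

theorem om_mem {n : ℕ} {L : Type*} [DecidableEq L] [Fintype L] (b : V n → L) (α : Finset L) :
    om (dd n) (ed b) α ∈ inc n := by
  induction hc : α.card using Nat.strong_induction_on generalizing α with
  | _ c ih =>
    rw [om_eq]
    refine Subring.sum_mem _ fun d hd => ?_
    refine Subring.mul_mem _ (ed_mem b d) ?_
    unfold gg
    refine Subring.add_mem _ ?_ (Subring.mul_mem _ (dd_mem n)
      (ih _ (by rw [← hc]; exact Finset.card_erase_lt_of_mem hd) _ rfl))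
    split_ifs
    · exact Subring.one_mem _
    · exact Subring.zero_mem _

theorem psi_mem {n N : ℕ} (b : V n → Fin N) (F : Face N) :
    psi (dd n) (ed b) (tau n) F ∈ inc n :=
  Subring.mul_mem _ (om_mem b _) (tau_mem (om_mem b _))

theorem dd_ne {n : ℕ} (M : Mx n) (x y : V n) (h : (dd n * M) x y ≠ 0) :
    ∃ i, x i = false ∧ M (Function.update x i true) y ≠ 0 := by
  rw [dd_mul] at h
  obtain ⟨i, -, hi⟩ := Finset.exists_ne_zero_of_sum_ne_zero h
  by_cases h1 : x i = false
  · rw [if_pos h1] at hi
    exact ⟨i, h1, hi⟩
  · rw [if_neg h1] at hi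
    exact absurd rfl hi

/-- the support of the words -/
theorem om_supp {n : ℕ} {L A : Type*} [Fintype L] [DecidableEq L] (r : V n → A) (b : V n → L)
    (h : ∀ x i, x i = false → b x = b (Function.update x i true) ∨
      r x = r (Function.update x i true))
    (α : Finset L) (x y : V n) (hxy : om (dd n) (ed b) α x y ≠ 0) :
    b x ∈ α ∧ r x = r y ∧ ∀ d ∈ α, ∃ z, b z = d ∧ r z = r y := by
  induction hc : α.card using Nat.strong_induction_on generalizing α x with
  | _ c ih =>
    rw [om_eq, Matrix.sum_apply] at hxy
    obtain ⟨d, hd, hne⟩ := Finset.exists_ne_zero_of_sum_ne_zero hxy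
    unfold ed at hne
    rw [Matrix.diagonal_mul] at hne
    have hb : b x = d := by
      by_contra hcon
      rw [if_neg hcon, zero_mul] at hne
      exact hne rfl
    have hg := right_ne_zero_of_mul hne
    by_cases he : α.erase d = ∅
    · have hα : α = {d} := by
        rw [← Finset.insert_erase hd, he]
        rfl
      unfold gg at hg
      rw [if_pos he, he, om_empty, mul_zero, add_zero] at hg
      have hxy' : x = y := by
        by_contra hcon
        exact hg (Matrix.one_apply_ne hcon)
      subst hxy'
      refine ⟨by rw [hb]; exact hd, rfl, fun f hf => ⟨x, ?_, rfl⟩⟩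
      rw [hα, Finset.mem_singleton] at hf
      rw [hb, hf]
    · unfold gg at hg
      rw [if_neg he, zero_add] at hg
      obtain ⟨i, hi, hi'⟩ := dd_ne _ _ _ hg
      obtain ⟨h1, h3, h4⟩ := ih (α.erase d).card
        (by rw [← hc]; exact Finset.card_erase_lt_of_mem hd) (α.erase d)
        (Function.update x i true) hi' rfl
      have hr : r x = r (Function.update x i true) := by
        rcases h x i hi with h5 | h5
        · rw [← h5, hb] at h1
          exact absurd h1 (Finset.notMem_erase d α)
        · exact h5
      refine ⟨by rw [hb]; exact hd, hr.trans h3, fun f hf => ?_⟩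
      by_cases hfd : f = d
      · exact ⟨x, by rw [hb, hfd], hr.trans h3⟩
      · exact h4 f (Finset.mem_erase.2 ⟨hfd, hf⟩)

/-- If every edge of the cube is constant for one of two labellings `r` and `b`, then there are
vertices `m, u, v` with `r u = r m`, `b u = b v` and `r v = r (antipode of m)`. -/
theorem two_label {n m : ℕ} (hn : n ≤ m) {A : Type*} (r : V n → A) (b : V n → Fin (m + 2))
    (h : ∀ x i, x i = false → b x = b (Function.update x i true) ∨
      r x = r (Function.update x i true)) :
    ∃ p u v : V n, r u = r p ∧ b u = b v ∧ r v = r (an p) := by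
  by_contra hcon
  push Not at hcon
  refine no_functional (dd n) (ed b) (tau n) m n rfl hn (fun M => two_zero M) (dd_dd n)
    (ed_sum b) tau_mul (tau_one n) (tau_dd n) tau_tau ?_ (inc n).toAddSubgroup
    (fun F => psi_mem b F) (fun k => Phi n k) (Phi_one n) (fun k M hM => Phi_step k hM)
    (fun M => Phi_last n M)
  intro α β hαβ
  rw [Finset.not_disjoint_iff] at hαβ
  obtain ⟨d, hdα, hdβ⟩ := hαβ
  ext x y
  rw [Matrix.mul_apply, Matrix.zero_apply]
  refine sum_eq_zero fun z _ => ?_
  by_contra hne
  obtain ⟨-, -, h1⟩ := om_supp r b h α x z (left_ne_zero_of_mul hne)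
  have h3 := right_ne_zero_of_mul hne
  rw [tau_apply] at h3
  obtain ⟨-, -, h4⟩ := om_supp r b h β _ _ h3
  obtain ⟨u, hu1, hu2⟩ := h1 d hdα
  obtain ⟨v, hv1, hv2⟩ := h4 d hdβ
  exact hcon z u v hu2 (by rw [hu1, hv1]) hv2

end Pool.Agent.TwoCh
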