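import Pool.Agent.TwoCh.Comm

set_option autoImplicit false

/-!
# MP_615643_co: labelling theorems for edge-antipodal and for centrally symmetric colourings
-/

namespace Pool.Agent.TwoCh

open Finset

/-- new labels in `Fin (m + 2)` -/
theorem exists_fin {X A : Type*} [Finite X] (g : X → A) (m0 : ℕ) :
    ∃ (m : ℕ) (g' : X → Fin (m + 2)), m0 ≤ m ∧ ∀ x y, g' x = g' y ↔ g x = g y := by
  classical
  let K := Set.range g
  have hK : Finite K := Set.finite_range g
  refine ⟨m0 + Nat.card K, fun x => Fin.castLE (by omega)
    (Finite.equivFin K ⟨g x, x, rfl⟩), by omega, ?_⟩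
  intro x y
  constructor
  · intro h
    have := (Finite.equivFin K).injective (Fin.castLE_injective _ h)
    exact congrArg Subtype.val this
  · intro h
    have : (⟨g x, x, rfl⟩ : K) = ⟨g y, y, rfl⟩ := Subtype.ext h
    simp only [this]

theorem dd_ne_zero {n : ℕ} {x y : V n} (h : dd n x y ≠ 0) :
    ∃ i, x i = false ∧ y = Function.update x i true := by
  unfold dd at h
  obtain ⟨i, -, hi⟩ := Finset.exists_ne_zero_of_sum_ne_zero h
  by_contra hc
  push Not at hc
  exact hi (if_neg fun h' => hc i h'.1 h'.2)

section diag

variable {n : ℕ} {L : Type*} [DecidableEq L]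

theorem tau_ed (b : V n → L) (d : L) : tau n (ed b d) = ed (fun x => b (an x)) d := by
  ext x y
  rw [tau_apply]
  unfold ed
  by_cases h : x = y
  · subst h
    rw [Matrix.diagonal_apply_eq, Matrix.diagonal_apply_eq]
  · rw [Matrix.diagonal_apply_ne _ h, Matrix.diagonal_apply_ne]
    intro h'
    apply h
    rw [← an_an x, ← an_an y, h']

theorem ed_orth (b : V n → L) (a a' : L) (h : a ≠ a') : ed b a * ed b a' = 0 := by
  unfold ed
  rw [Matrix.diagonal_mul_diagonal]
  ext x y
  by_cases hxy : x = y
  · subst hxy
    rw [Matrix.diagonal_apply_eq, Matrix.zero_apply]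
    by_cases h1 : b x = a
    · rw [if_neg (fun h2 => h (h1.symm.trans h2)), mul_zero]
    · rw [if_neg h1, zero_mul]
  · rw [Matrix.diagonal_apply_ne _ hxy, Matrix.zero_apply]

theorem ed_commute {L' : Type*} [DecidableEq L'] (b : V n → L) (b' : V n → L') (a : L) (d : L') :
    ed b a * ed b' d = ed b' d * ed b a := by
  unfold ed
  rw [Matrix.diagonal_mul_diagonal, Matrix.diagonal_mul_diagonal]
  congr 1
  funext x
  exact mul_comm _ _

theorem ed_step {L' : Type*} [DecidableEq L'] (b : V n → L) (b' : V n → L')
    (h : ∀ x i, x i = false → b' x = b' (Function.update x i true) ∨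
      b x = b (Function.update x i true)) (a : L) (d d' : L') (hd : d ≠ d') :
    ed b a * (ed b' d * dd n * ed b' d') = (ed b' d * dd n * ed b' d') * ed b a := by
  ext x y
  unfold ed
  simp only [Matrix.diagonal_mul, Matrix.mul_diagonal]
  by_cases h0 : dd n x y = 0
  · rw [h0]; ring
  · obtain ⟨i, hi, hy⟩ := dd_ne_zero h0
    by_cases h1 : b' x = d
    · by_cases h2 : b' y = d'
      · have h3 : b x = b y := by
          rcases h x i hi with h4 | h4
          · rw [← hy, h1, h2] at h4
            exact absurd h4 hd
          · rw [hy]; exact h4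
        rw [h3]; ring
      · rw [if_neg h2]; ring
    · rw [if_neg h1]; ring

end diag

/-- **Norine's theorem for labellings**: if every edge of the cube, or its antipodal edge, is
constant for the labelling `g`, then some vertex and its antipode have the same label. -/
theorem norine_label {n : ℕ} {A : Type*} (g : V n → A)
    (h : ∀ x i, x i = false → g x = g (Function.update x i true) ∨
      g (an x) = g (an (Function.update x i true))) :
    ∃ x, g x = g (an x) := by
  classical
  by_contra hcon
  push Not at hcon
  obtain ⟨m, g', hm, hg⟩ := exists_fin g n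
  have h' : ∀ x i, x i = false → g' x = g' (Function.update x i true) ∨
      g' (an x) = g' (an (Function.update x i true)) := by
    intro x i hi
    rw [hg, hg]
    exact h x i hi
  have hup : ∀ (x : V n) (i : Fin n), x i = false →
      g' (an (Function.update x i true)) = g' (an x) ∨ g' (Function.update x i true) = g' x := by
    intro x i hi
    rcases h' x i hi with h1 | h1
    · exact Or.inr h1.symm
    · exact Or.inl h1.symm
  refine no_functional (dd n) (ed g') (tau n) m n rfl hm (fun M => two_zero M) (dd_dd n)
    (ed_sum g') tau_mul (tau_one n) (tau_dd n) tau_tau ?_ (inc n).toAddSubgroup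
    (fun F => psi_mem g' F) (fun k => Phi n k) (Phi_one n) (fun k M hM => Phi_step k hM)
    (fun M => Phi_last n M)
  intro α β hαβ
  rw [Finset.not_disjoint_iff] at hαβ
  obtain ⟨d, hdα, hdβ⟩ := hαβ
  rw [tau_om (dd n) (ed g') (tau n) tau_mul (tau_one n) (tau_dd n)]
  have hf : (fun a => tau n (ed g' a)) = ed (fun x => g' (an x)) := by
    funext a
    exact tau_ed g' a
  rw [hf]
  refine words_zero (fun M => two_zero M) (dd n) (dd_dd n) (ed g') (ed fun x => g' (an x))
    (ed_sum _) (ed_orth _) (ed_sum _) (ed_orth _) (fun a d => ed_commute _ _ a d)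
    (fun a d d' hd => ed_step _ _ ?_ a d d' hd) (fun d a a' hd => ed_step _ _ ?_ d a a' hd)
    d d ?_ α β hdα hdβ
  · intro x i hi
    rcases h' x i hi with h1 | h1
    · exact Or.inr h1
    · exact Or.inl h1
  · intro x i hi
    exact h' x i hi
  · unfold ed
    rw [Matrix.diagonal_mul_diagonal]
    ext x y
    by_cases hxy : x = y
    · subst hxy
      rw [Matrix.diagonal_apply_eq, Matrix.zero_apply]
      by_cases h1 : g' x = d
      · by_cases h2 : g' (an x) = d
        · exact absurd ((hg _ _).1 (h1.trans h2.symm)) (hcon x)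
        · rw [if_neg h2, mul_zero]
      · rw [if_neg h1, zero_mul]
    · rw [Matrix.diagonal_apply_ne _ hxy, Matrix.zero_apply]

end Pool.Agent.TwoCh
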