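import Mathlib

set_option autoImplicit false

/-!
# MP_615643_co, two colour changes: cochains on the faces of a cube

A face of the `n`-cube is a function `Fin n → Option Bool` (`none` = free coordinate).  The
functional `phi n k` evaluates a cochain on the chain `h_k` of all `k`-dimensional faces whose
fixed coordinates have alternating values, beginning with `false`; these chains satisfy
`∂ h_k = (1 + t) h_(k-1)` modulo 2, where `t` is the antipodal map.
-/

namespace Pool.Agent.TwoCh

open Finset

/-- faces of the cube -/
abbrev Face (n : ℕ) := Fin n → Option Bool

/-- the antipodal face -/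
def tw {n : ℕ} (F : Face n) : Face n := fun i => (F i).map not

theorem tw_tw {n : ℕ} (F : Face n) : tw (tw F) = F := by
  funext i
  unfold tw
  rcases F i with _ | b
  · rfl
  · cases b <;> rfl

theorem tw_cons_none {n : ℕ} (F : Face n) :
    tw (Fin.cons none F : Face (n + 1)) = (Fin.cons none (tw F) : Face (n + 1)) := by
  funext i
  refine Fin.cases ?_ (fun j => ?_) i <;> simp [tw]

theorem tw_cons_some {n : ℕ} (b : Bool) (F : Face n) :
    tw (Fin.cons (some b) F : Face (n + 1)) = (Fin.cons (some (!b)) (tw F) : Face (n + 1)) := by
  funext i
  refine Fin.cases ?_ (fun j => ?_) i <;> simp [tw]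

section

variable {R : Type*} [AddCommMonoid R]

/-- the coboundary -/
def cob {n : ℕ} (M : Face n → R) (F : Face n) : R :=
  ∑ i, if F i = none then M (Function.update F i (some false)) +
    M (Function.update F i (some true)) else 0

/-- evaluation on the chain of alternating faces of dimension `k` -/
def phi : (n k : ℕ) → (Face n → R) → R
  | 0, 0, M => M (fun _ => none)
  | 0, _ + 1, _ => 0
  | n + 1, 0, M => phi n 0 (fun F => M (Fin.cons (some false) (tw F)))
  | n + 1, k + 1, M => phi n (k + 1) (fun F => M (Fin.cons (some false) (tw F))) +
      phi n k (fun F => M (Fin.cons none F))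

theorem phi_add (n k : ℕ) (M M' : Face n → R) :
    phi n k (fun F => M F + M' F) = phi n k M + phi n k M' := by
  induction n generalizing k with
  | zero =>
    cases k with
    | zero => rfl
    | succ k => simp [phi]
  | succ n ih =>
    cases k with
    | zero => simp only [phi, ih]
    | succ k => simp only [phi, ih]; abel

theorem phi_zero_fun (n k : ℕ) : phi n k (fun _ => (0 : R)) = 0 := by
  induction n generalizing k with
  | zero =>
    cases k with
    | zero => rfl
    | succ k => simp [phi]
  | succ n ih =>
    cases k with
    | zero => simp only [phi, ih]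
    | succ k => simp only [phi, ih, add_zero]

theorem phi_map {S : Type*} [AddCommMonoid S] (f : R →+ S) (n k : ℕ) (M : Face n → R) :
    phi n k (fun F => f (M F)) = f (phi n k M) := by
  induction n generalizing k with
  | zero =>
    cases k with
    | zero => rfl
    | succ k => simp [phi]
  | succ n ih =>
    cases k with
    | zero => simp only [phi]; exact ih _ _
    | succ k =>
      simp only [phi, map_add]
      rw [← ih, ← ih]

theorem phi_gt {n k : ℕ} (h : n < k) (M : Face n → R) : phi n k M = 0 := by
  induction n generalizing k with
  | zero =>
    cases k with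
    | zero => omega
    | succ k => rfl
  | succ n ih =>
    cases k with
    | zero => omega
    | succ k => simp only [phi]; rw [ih (by omega), ih (by omega), add_zero]

theorem phi_top (n : ℕ) (M : Face n → R) : phi n n M = M (fun _ => none) := by
  induction n with
  | zero => rfl
  | succ n ih =>
    simp only [phi]
    rw [phi_gt (by omega), ih, zero_add]
    congr 1
    funext i
    refine Fin.cases ?_ (fun j => ?_) i <;> simp

theorem phi_codim_one (m : ℕ) (M : Face (m + 1) → R) :
    phi (m + 1) m M = ∑ d, M (Function.update (fun _ => none) d (some false)) := by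
  induction m with
  | zero =>
    simp only [phi]
    rw [Fin.sum_univ_one]
    congr 1
    funext i
    refine Fin.cases ?_ (fun j => j.elim0) i
    simp
  | succ m ih =>
    rw [phi, phi_top, ih,
      Fin.sum_univ_succ (fun d : Fin (m + 1 + 1) =>
        M (Function.update (fun _ => none) d (some false)))]
    congr 1
    · congr 1
      funext i
      refine Fin.cases ?_ (fun j => ?_) i <;> simp [tw]
    · refine sum_congr rfl fun d _ => ?_
      congr 1
      funext i
      refine Fin.cases ?_ (fun j => ?_) i
      · rw [Fin.cons_zero, Function.update_of_ne (Fin.succ_ne_zero d).symm]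
      · rw [Fin.cons_succ]
        by_cases hj : j = d
        · subst hj
          rw [Function.update_self, Function.update_self]
        · rw [Function.update_of_ne hj, Function.update_of_ne
            (fun h => hj (Fin.succ_injective _ h))]

theorem phi_zero_const {n : ℕ} (M : Face n → R) (a : R) (h : ∀ F : Face n, (∀ i, F i ≠ none) →
    M F = a) : phi n 0 M = a := by
  induction n with
  | zero =>
    simp only [phi]
    exact h _ (fun i => i.elim0)
  | succ n ih =>
    simp only [phi]
    refine ih _ fun F hF => h _ fun i => ?_
    refine Fin.cases ?_ (fun j => ?_) i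
    · simp
    · simpa [tw] using hF j

theorem phi_mem {R : Type*} [AddCommGroup R] (S : AddSubgroup R) (n k : ℕ) (M : Face n → R)
    (h : ∀ F, M F ∈ S) : phi n k M ∈ S := by
  induction n generalizing k with
  | zero =>
    cases k with
    | zero => exact h _
    | succ k => exact S.zero_mem
  | succ n ih =>
    cases k with
    | zero => simp only [phi]; exact ih _ _ fun F => h _
    | succ k => simp only [phi]; exact S.add_mem (ih _ _ fun F => h _) (ih _ _ fun F => h _)

theorem phi_van0 {n k : ℕ} (h : k < n) (M : Face n → R)
    (hM : ∀ F : Face n, (∃ i, F i = some false) → M F = 0) : phi n k M = 0 := by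
  induction n generalizing k with
  | zero => omega
  | succ n ih =>
    have h1 : (fun F : Face n => M (Fin.cons (some false) (tw F))) = fun _ => 0 := by
      funext F
      exact hM _ ⟨0, by simp⟩
    cases k with
    | zero => simp only [phi, h1, phi_zero_fun]
    | succ k =>
      simp only [phi, h1, phi_zero_fun, zero_add]
      refine ih (by omega) _ fun F hF => ?_
      obtain ⟨i, hi⟩ := hF
      exact hM _ ⟨i.succ, by simpa using hi⟩

theorem phi_van1 {n k : ℕ} (h : k + 1 < n) (M : Face n → R)
    (hM : ∀ F : Face n, (∃ i, F i = some false) → (∃ i, F i = some true) → M F = 0) :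
    phi n k M = 0 := by
  induction n generalizing k with
  | zero => omega
  | succ n ih =>
    have h1 : phi n k (fun F : Face n => M (Fin.cons (some false) (tw F))) = 0 := by
      refine phi_van0 (by omega) _ fun F hF => ?_
      obtain ⟨i, hi⟩ := hF
      exact hM _ ⟨0, by simp⟩ ⟨i.succ, by simp [tw, hi]⟩
    cases k with
    | zero => simp only [phi, h1]
    | succ k =>
      simp only [phi, h1, zero_add]
      refine ih (by omega) _ fun F hF hF' => ?_
      obtain ⟨i, hi⟩ := hF
      obtain ⟨j, hj⟩ := hF'
      exact hM _ ⟨i.succ, by simpa using hi⟩ ⟨j.succ, by simpa using hj⟩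

theorem cob_tw {n : ℕ} (M : Face n → R) (F : Face n) :
    cob M (tw F) = cob (fun G => M (tw G)) F := by
  unfold cob
  refine sum_congr rfl fun i _ => ?_
  have h1 : tw F i = none ↔ F i = none := by simp [tw]
  have h2 : ∀ b : Bool, tw (Function.update F i (some b)) =
      Function.update (tw F) i (some (!b)) := by
    intro b
    funext j
    unfold tw
    by_cases hj : j = i
    · subst hj
      simp
    · simp [Function.update_of_ne hj]
  simp only [h1, h2]
  rw [add_comm]
  rfl

theorem cob_cons_some {n : ℕ} (M : Face (n + 1) → R) (b : Bool) (F : Face n) :
    cob M (Fin.cons (some b) F) = cob (fun G => M (Fin.cons (some b) G)) F := by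
  unfold cob
  rw [Fin.sum_univ_succ]
  simp only [Fin.cons_zero, Fin.cons_succ, Fin.cons_update]
  simp

theorem cob_cons_none {n : ℕ} (M : Face (n + 1) → R) (F : Face n) :
    cob M (Fin.cons none F) = M (Fin.cons (some false) F) + M (Fin.cons (some true) F) +
      cob (fun G => M (Fin.cons none G)) F := by
  unfold cob
  rw [Fin.sum_univ_succ]
  simp only [Fin.cons_zero, Fin.cons_succ, Fin.cons_update, Fin.update_cons_zero, if_true]

theorem phi_cob_zero {n : ℕ} (M : Face n → R) : phi n 0 (cob M) = 0 := by
  induction n with
  | zero => simp [phi, cob]
  | succ n ih =>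
    simp only [phi, cob_cons_some, cob_tw]
    exact ih _

/-- the main property of the alternating chains -/
theorem phi_cob (h2 : ∀ r : R, r + r = 0) {n : ℕ} (k : ℕ) (M : Face n → R) :
    phi n (k + 1) (cob M) = phi n k (fun F => M F + M (tw F)) := by
  induction n generalizing k with
  | zero =>
    cases k with
    | zero =>
      simp only [phi]
      rw [show tw (fun _ => none : Face 0) = (fun _ => none : Face 0) from Subsingleton.elim _ _]
      exact (h2 _).symm
    | succ k => rfl
  | succ n ih =>
    rw [phi]
    simp only [cob_cons_some, cob_tw, cob_cons_none]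
    rw [ih, phi_add, phi_add, phi_add]
    simp only [tw_tw]
    have h3 : phi n k (fun G : Face n => M (Fin.cons (some false) (tw G))) +
        phi n k (fun F : Face n => M (Fin.cons (some false) F)) +
        (phi n k (fun F : Face n => M (Fin.cons (some false) F)) +
          phi n k (fun F : Face n => M (Fin.cons (some true) F)) +
          phi n k (cob fun G : Face n => M (Fin.cons none G))) =
        phi n k (fun G : Face n => M (Fin.cons (some false) (tw G))) +
          phi n k (fun F : Face n => M (Fin.cons (some true) F)) +
          phi n k (cob fun G : Face n => M (Fin.cons none G)) := by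
      have := h2 (phi n k (fun F : Face n => M (Fin.cons (some false) F)))
      calc _ = phi n k (fun G : Face n => M (Fin.cons (some false) (tw G))) +
            (phi n k (fun F : Face n => M (Fin.cons (some false) F)) +
            phi n k (fun F : Face n => M (Fin.cons (some false) F))) +
            (phi n k (fun F : Face n => M (Fin.cons (some true) F)) +
            phi n k (cob fun G : Face n => M (Fin.cons none G))) := by abel
        _ = _ := by rw [this]; abel
    rw [h3]
    cases k with
    | zero =>
      rw [phi_cob_zero, add_zero]
      simp only [phi, tw_cons_some, tw_tw, phi_add, Bool.not_false]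
    | succ k =>
      rw [ih]
      simp only [phi, tw_cons_some, tw_cons_none, tw_tw, phi_add, Bool.not_false]

end

end Pool.Agent.TwoCh
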