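import Pool.Agent.TwoCh.Norine

set_option autoImplicit false

/-!
# MP_615643_co: the labelling theorem for centrally symmetric colourings
-/

namespace Pool.Agent.TwoCh

open Finset

/-- abstract form of the contradiction -/
theorem no_family {R : Type*} [Ring R] (D : R) (tau : R →+ R) (m n : ℕ) (hn : n ≤ m)
    (S : AddSubgroup R) (B : ℕ → R) (hB : ∀ k, B k ∈ S)
    (h0 : B m + tau (B m) = 1) (hs : ∀ k, k < m → B k + tau (B k) = D * B (k + 1) + B (k + 1) * D)
    (Phi : ℕ → R →+ ZMod 2) (hone : Phi 0 1 = 1)
    (hstep : ∀ k, ∀ r ∈ S, Phi (k + 1) (D * r + r * D) = Phi k (r + tau r))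
    (hlast : ∀ r, Phi (n + 1) r = 0) : False := by
  have h3 : ∀ i, i ≤ n → Phi i (B (m - i) + tau (B (m - i))) = 1 := by
    intro i
    induction i with
    | zero =>
      intro _
      rw [Nat.sub_zero, h0, hone]
    | succ i ih =>
      intro hi
      have h4 : m - (i + 1) + 1 = m - i := by omega
      rw [hs (m - (i + 1)) (by omega), h4, hstep i _ (hB _)]
      exact ih (by omega)
  have h4 := h3 n le_rfl
  rw [← hstep n _ (hB _), hlast] at h4
  exact zero_ne_one h4

/-- the set of signed labels of a face -/
def sg {N : ℕ} (F : Face N) : Finset (Fin N × Bool) := univ.filter fun l => F l.1 = some l.2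

/-- change of the sign -/
def fl {N : ℕ} : (Fin N × Bool) ≃ (Fin N × Bool) where
  toFun l := (l.1, !l.2)
  invFun l := (l.1, !l.2)
  left_inv l := by simp
  right_inv l := by simp

theorem sg_tw {N : ℕ} (F : Face N) : sg (tw F) = (sg F).map fl.toEmbedding := by
  ext ⟨j, b⟩
  simp only [sg, tw, mem_filter, mem_univ, true_and, mem_map, Equiv.coe_toEmbedding, Prod.exists]
  constructor
  · intro h
    refine ⟨j, !b, ?_, by simp [fl]⟩
    rcases hF : F j with _ | c
    · rw [hF] at h; simp at h
    · rw [hF] at h
      simp only [Option.map_some, Option.some.injEq] at h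
      rw [← h]; simp
  · rintro ⟨j', b', h, h'⟩
    simp only [fl, Equiv.coe_fn_mk, Prod.mk.injEq] at h'
    obtain ⟨rfl, rfl⟩ := h'
    rw [h]; rfl

theorem sg_upd {N : ℕ} (F : Face N) (j : Fin N) (hj : F j = none) (b : Bool) :
    sg (Function.update F j (some b)) = insert (j, b) (sg F) := by
  ext ⟨i, c⟩
  simp only [sg, mem_filter, mem_univ, true_and, mem_insert, Prod.mk.injEq]
  by_cases hi : i = j
  · subst hi
    rw [Function.update_self, hj]
    simp [eq_comm]
  · rw [Function.update_of_ne hi]
    simp [hi]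

/-- reindexing of words -/
theorem om_map {R : Type*} [Ring R] {L : Type*} [Fintype L] [DecidableEq L] (D : R) (e : L → R)
    (f : L ≃ L) (α : Finset L) : om D e (α.map f.toEmbedding) = om D (fun l => e (f l)) α := by
  induction hc : α.card using Nat.strong_induction_on generalizing α with
  | _ c ih =>
    rw [om_eq, om_eq, Finset.sum_map]
    refine Finset.sum_congr rfl fun d hd => ?_
    have h1 : (α.map f.toEmbedding).erase (f d) = (α.erase d).map f.toEmbedding := by
      rw [Finset.map_erase]; rfl
    have h2 : gg D e ((α.map f.toEmbedding).erase (f d)) =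
        gg D (fun l => e (f l)) (α.erase d) := by
      rw [h1]
      unfold gg
      rw [ih (α.erase d).card (by rw [← hc]; exact Finset.card_erase_lt_of_mem hd)
        (α.erase d) rfl]
      simp only [Finset.map_eq_empty]
    change e (f d) * gg D e ((α.map f.toEmbedding).erase (f d)) = _
    rw [h2]

section

variable {n N : ℕ} (s : V n → Fin N × Bool) (hs : ∀ x, s (an x) = fl (s x))
  (van : ∀ (α : Finset (Fin N × Bool)) (l : Fin N × Bool), l ∈ α → fl l ∈ α →
    om (dd n) (ed s) α = 0)

include hs in
theorem tau_sg (F : Face N) :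
    tau n (om (dd n) (ed s) (sg F)) = om (dd n) (ed s) (sg (tw F)) := by
  rw [sg_tw, om_map, tau_om (dd n) (ed s) (tau n) tau_mul (tau_one n) (tau_dd n)]
  congr 1
  funext l
  rw [tau_ed]
  unfold ed
  congr 1
  funext x
  change (if s (an x) = l then (1 : ZMod 2) else 0) = if s x = fl l then 1 else 0
  rw [hs]
  congr 1
  apply propext
  constructor
  · intro h
    rw [← h]
    exact (fl.apply_symm_apply _).symm
  · intro h
    rw [h]
    exact (fl.apply_symm_apply _)

include van in
theorem cob_sg (F : Face N) : cob (fun F => om (dd n) (ed s) (sg F)) F =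
    dd n * om (dd n) (ed s) (sg F) + om (dd n) (ed s) (sg F) * dd n +
      (if sg F = ∅ then 1 else 0) := by
  have h1 := om_ins (fun M => two_zero M) (dd n) (dd_dd n) (ed s) (ed_sum s) (sg F)
  have h2 : ∑ d ∈ (sg F)ᶜ, om (dd n) (ed s) (insert d (sg F)) =
      ∑ d : Fin N × Bool, if F d.1 = none then om (dd n) (ed s) (insert d (sg F)) else 0 := by
    rw [← Finset.sum_filter]
    symm
    refine Finset.sum_subset ?_ ?_
    · rintro ⟨j, b⟩ h
      simp only [mem_filter, mem_univ, true_and] at h
      simp [sg, h]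
    · rintro ⟨j, b⟩ h h'
      refine van _ (j, b) (mem_insert_self _ _) (mem_insert_of_mem ?_)
      simp only [mem_compl, sg, mem_filter, mem_univ, true_and] at h h'
      simp only [sg, fl, Equiv.coe_fn_mk, mem_filter, mem_univ, true_and]
      rcases hF : F j with _ | c
      · exact absurd hF h'
      · rw [hF] at h
        cases b <;> cases c <;> simp at h ⊢
  rw [h2, Fintype.sum_prod_type] at h1
  have h3 : cob (fun F => om (dd n) (ed s) (sg F)) F = ∑ j : Fin N, ∑ b : Bool,
      if F j = none then om (dd n) (ed s) (insert (j, b) (sg F)) else 0 := by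
    unfold cob
    refine sum_congr rfl fun j _ => ?_
    rw [Fintype.sum_bool]
    by_cases hj : F j = none
    · simp only [hj, if_true]
      rw [sg_upd F j hj, sg_upd F j hj, add_comm]
    · simp [hj]
  rw [h3, h1]
  abel

end

/-- **The labelling theorem for centrally symmetric colourings.** -/
theorem symm_label {n : ℕ} {A B : Type*} (r : V n → A) (b : V n → B)
    (h : ∀ x i, x i = false → r x = r (Function.update x i true) ∨
      b x = b (Function.update x i true))
    (hr : ∀ x y, r x = r y → r (an x) = r (an y)) :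
    ∃ x y, r x = r y ∧ b y = b (an x) := by
  classical
  by_contra hcon
  push Not at hcon
  obtain ⟨m, r', hm, hr'⟩ := exists_fin r n
  have hne : ∀ x, r' x ≠ r' (an x) := by
    intro x hx
    exact hcon x (an x) ((hr' _ _).1 hx) rfl
  have hr2 : ∀ x y, r' (an x) = r' (an y) → r' x = r' y := by
    intro x y hxy
    have := hr _ _ ((hr' _ _).1 hxy)
    rw [an_an, an_an] at this
    exact (hr' _ _).2 this
  have hr3 : ∀ x y, r' x = r' y → r' (an x) = r' (an y) := fun x y hxy =>
    (hr' _ _).2 (hr _ _ ((hr' _ _).1 hxy))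
  let s : V n → Fin (m + 2) × Bool := fun x => (min (r' x) (r' (an x)), decide (r' x < r' (an x)))
  have hs : ∀ x, s (an x) = fl (s x) := by
    intro x
    simp only [s, fl, Equiv.coe_fn_mk, an_an, Prod.mk.injEq]
    refine ⟨min_comm _ _, ?_⟩
    rcases lt_trichotomy (r' x) (r' (an x)) with h1 | h1 | h1
    · simp [h1, h1.le]
    · exact absurd h1 (hne x)
    · simp [h1, h1.le]
  have hs1 : ∀ x y, s x = s y → r' x = r' y := by
    intro x y hxy
    simp only [s, Prod.mk.injEq, decide_eq_decide] at hxy
    obtain ⟨h1, h2⟩ := hxy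
    by_cases h3 : r' x < r' (an x)
    · have h4 := h2.1 h3
      rwa [min_eq_left h3.le, min_eq_left h4.le] at h1
    · have h4 : ¬ r' y < r' (an y) := fun h5 => h3 (h2.2 h5)
      rw [min_eq_right (not_lt.1 h3), min_eq_right (not_lt.1 h4)] at h1
      exact hr2 x y h1
  have hs2 : ∀ x y, r' x = r' y → s x = s y := by
    intro x y hxy
    simp only [s, hxy, hr3 x y hxy]
  have hedge : ∀ x i, x i = false → s x = s (Function.update x i true) ∨
      b x = b (Function.update x i true) := by
    intro x i hi
    rcases h x i hi with h1 | h1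
    · exact Or.inl (hs2 _ _ ((hr' _ _).2 h1))
    · exact Or.inr h1
  have van : ∀ (α : Finset (Fin (m + 2) × Bool)) (l : Fin (m + 2) × Bool), l ∈ α → fl l ∈ α →
      om (dd n) (ed s) α = 0 := by
    intro α l hl hl'
    ext x y
    rw [Matrix.zero_apply]
    by_contra hne'
    obtain ⟨-, -, h1⟩ := om_supp b s hedge α x y hne'
    obtain ⟨z, hz, hz'⟩ := h1 l hl
    obtain ⟨w, hw, hw'⟩ := h1 (fl l) hl'
    have h2 : s (an w) = s z := by
      rw [hs, hw, hz]
      exact fl.apply_symm_apply _
    refine hcon (an w) z ((hr' _ _).1 (hs1 _ _ h2)) ?_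
    rw [an_an, hz', hw']
  let B : ℕ → Mx n := fun k => phi (m + 2) k fun F => om (dd n) (ed s) (sg F)
  have hB : ∀ k, B k ∈ (inc n).toAddSubgroup := fun k =>
    phi_mem _ _ _ _ fun F => om_mem s _
  have hstep : ∀ k, B k + tau n (B k) = dd n * B (k + 1) + B (k + 1) * dd n +
      phi (m + 2) (k + 1) (fun F => if sg F = ∅ then (1 : Mx n) else 0) := by
    intro k
    have h3 := phi_cob (R := Mx n) (fun M => two_zero M) (n := m + 2) k
      (fun F => om (dd n) (ed s) (sg F))
    rw [phi_add] at h3
    have h4 : phi (m + 2) k (fun F => om (dd n) (ed s) (sg (tw F))) = tau n (B k) := by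
      rw [← phi_map]
      congr 1
      funext F
      exact (tau_sg s hs F).symm
    rw [h4] at h3
    rw [← h3]
    have h5 : cob (fun F => om (dd n) (ed s) (sg F)) = fun F : Face (m + 2) =>
        (dd n * om (dd n) (ed s) (sg F) + om (dd n) (ed s) (sg F) * dd n) +
          (if sg F = ∅ then 1 else 0) := by
      funext F
      exact cob_sg s van F
    rw [h5, phi_add, phi_add]
    congr 2
    · exact phi_map (AddMonoidHom.mulLeft (dd n)) _ _ _
    · exact phi_map (AddMonoidHom.mulRight (dd n)) _ _ _
  have hsg : ∀ F : Face (m + 2), (∃ i, F i = some false) →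
      (if sg F = ∅ then (1 : Mx n) else 0) = 0 := by
    rintro F ⟨i, hi⟩
    rw [if_neg]
    exact Finset.ne_empty_of_mem (a := (i, false)) (by simp [sg, hi])
  refine no_family (dd n) (tau n) (m + 1) n (by omega) (inc n).toAddSubgroup B hB ?_ ?_
    (fun k => Phi n k) (Phi_one n) (fun k M hM => Phi_step k hM) (fun M => Phi_last n M)
  · rw [hstep]
    have h6 : B (m + 1 + 1) = 0 := by
      change phi (m + 2) (m + 2) _ = 0
      rw [phi_top]
      have : sg (fun _ => none : Face (m + 2)) = ∅ := by simp [sg]
      rw [this, om_empty]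
    have h7 : phi (m + 2) (m + 1 + 1) (fun F => if sg F = ∅ then (1 : Mx n) else 0) = 1 := by
      change phi (m + 2) (m + 2) _ = 1
      rw [phi_top, if_pos (by simp [sg])]
    rw [h6, h7, mul_zero, zero_mul, zero_add, zero_add]
  · intro k hk
    rw [hstep, phi_van0 (by omega) _ hsg, add_zero]

end Pool.Agent.TwoCh
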